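import Pool.Agent.Q98.SPN.Stm

set_option autoImplicit false

/-!
# Package DEC of project GSP: decomposition into a small part and low rank parts
-/

open scoped Matrix.Norms.L2Operator Matrix
open Finset

namespace Pool.Agent.U60.GSP.DEC

open Pool.Agent.Q98.SPN

lemma layers {M : Type} [AddCommMonoid M] (a : ℕ → ℝ) (ha : ∀ k, a k ≤ a (k + 1)) (x : ℝ) (F : M)
    (K : ℕ) : (if x ≤ a 0 then F else 0)
      + ∑ k ∈ range K, (if a k < x ∧ x ≤ a (k + 1) then F else 0) = if x ≤ a K then F else 0 := by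
  induction K with
  | zero => simp
  | succ K ih =>
    rw [sum_range_succ, ← add_assoc, ih]
    have h := ha K
    by_cases h1 : x ≤ a K
    · have h2 : x ≤ a (K + 1) := h1.trans h
      have h3 : ¬ (a K < x ∧ x ≤ a (K + 1)) := fun h3 => absurd h1 (not_le.2 h3.1)
      rw [if_pos h1, if_neg h3, if_pos h2, add_zero]
    · by_cases h2 : x ≤ a (K + 1)
      · rw [if_neg h1, if_pos ⟨not_le.1 h1, h2⟩, if_pos h2, zero_add]
      · rw [if_neg h1, if_neg fun h3 => h2 h3.2, if_neg h2, zero_add]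

lemma sum_layers {M : Type} [AddCommMonoid M] {d : ℕ} (a : ℕ → ℝ) (ha : ∀ k, a k ≤ a (k + 1))
    (l : Fin d → ℝ) (F : Fin d → M) (K : ℕ) (hK : ∀ j, l j ≤ a K) :
    ∑ j ∈ univ.filter (fun j => l j ≤ a 0), F j
      + ∑ k ∈ range K, ∑ j ∈ univ.filter (fun j => a k < l j ∧ l j ≤ a (k + 1)), F j
      = ∑ j, F j := by
  simp only [sum_filter]
  rw [sum_comm, ← sum_add_distrib]
  refine sum_congr rfl fun j _ => ?_
  rw [layers a ha (l j) (F j) K, if_pos (hK j)]

/-- the product of selected columns -/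
lemma prod_entry {d : ℕ} (Q U : Matrix (Fin d) (Fin d) ℂ) (T : Finset (Fin d)) (a b : Fin d) :
    (Q.submatrix id (T.orderEmbOfFin rfl) * (U.submatrix id (T.orderEmbOfFin rfl))ᴴ) a b
      = ∑ j ∈ T, Q a j * star (U b j) := by
  rw [Matrix.mul_apply]
  simp only [Matrix.submatrix_apply, Matrix.conjTranspose_apply, id_eq]
  have h := Finset.sum_map univ (T.orderEmbOfFin rfl).toEmbedding (fun j => Q a j * star (U b j))
  have hm : univ.map (T.orderEmbOfFin rfl).toEmbedding = T := by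
    ext j
    rw [Finset.mem_map]
    constructor
    · rintro ⟨i, -, rfl⟩
      exact T.orderEmbOfFin_mem rfl i
    · intro hj
      have h2 : j ∈ Set.range (T.orderEmbOfFin rfl) := by
        rw [Finset.range_orderEmbOfFin]
        exact hj
      obtain ⟨i, hi⟩ := h2
      exact ⟨i, mem_univ _, hi⟩
  rw [hm] at h
  exact h.symm

theorem t_DEC (hSPEC : S_SPEC) (hCOLS : S_COLS) : S_DEC := by
  intro d Y s K κ hs hκ ht
  obtain ⟨U, l, hU1, hU2, hl, hQ, htk⟩ := hSPEC d Y
  set Q := Y * U with hQdef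
  set a : ℕ → ℝ := fun k => (2 ^ k * s) ^ 2 with ha
  have hamono : ∀ k, a k ≤ a (k + 1) := by
    intro k
    simp only [ha]
    have h1 : (0 : ℝ) ≤ 2 ^ k * s := by positivity
    have h2 : (2 : ℝ) ^ (k + 1) * s = 2 * (2 ^ k * s) := by ring
    rw [h2]
    nlinarith
  have ha4 : ∀ k, (4 : ℝ) ^ k * s ^ 2 = a k := by
    intro k
    simp only [ha]
    have h : (4 : ℝ) = 2 ^ 2 := by norm_num
    rw [h, ← pow_mul, mul_pow, ← pow_mul, mul_comm 2 k]
  have hlK : ∀ j, l j ≤ a K := by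
    intro j
    have h1 : l j ^ κ ≤ ∑ j, l j ^ κ :=
      single_le_sum (f := fun j => l j ^ κ) (fun i _ => pow_nonneg (hl i) κ) (mem_univ j)
    rw [← htk κ] at h1
    have h2 := h1.trans_lt ht
    rw [ha4] at h2
    exact (lt_of_pow_lt_pow_left₀ κ (by simp only [ha]; positivity) h2).le
  set S : ℕ → Finset (Fin d) := fun k => univ.filter (fun j => a k < l j ∧ l j ≤ a (k + 1)) with hS
  set T : Finset (Fin d) := univ.filter (fun j => l j ≤ a 0) with hT
  have hU3 : Uᴴ * U = Matrix.diagonal (fun _ : Fin d => (((1 : ℝ) : ℝ) : ℂ)) := by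
    rw [hU2]
    ext i j
    simp [Matrix.one_apply, Matrix.diagonal_apply]
  have hUn : ∀ R : Finset (Fin d), ‖U.submatrix id (R.orderEmbOfFin rfl)‖ ≤ 1 := by
    intro R
    refine hCOLS d U (fun _ => 1) 1 zero_le_one hU3 _ _ (R.orderEmbOfFin rfl).injective ?_
    intro j
    norm_num
  have hQn : ∀ (R : Finset (Fin d)) (b : ℝ), 0 ≤ b → (∀ j ∈ R, l j ≤ b ^ 2) →
      ‖Q.submatrix id (R.orderEmbOfFin rfl)‖ ≤ b := by
    intro R b hb h
    refine hCOLS d Q l b hb hQ _ _ (R.orderEmbOfFin rfl).injective fun j => ?_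
    exact h _ (R.orderEmbOfFin_mem rfl j)
  refine ⟨fun k => (S k).card, fun k => Q.submatrix id ((S k).orderEmbOfFin rfl),
    fun k => U.submatrix id ((S k).orderEmbOfFin rfl), ?_, fun k => ⟨?_, hUn _⟩, ?_⟩
  · have hY : Y - ∑ k ∈ range K, Q.submatrix id ((S k).orderEmbOfFin rfl)
        * (U.submatrix id ((S k).orderEmbOfFin rfl))ᴴ
        = Q.submatrix id (T.orderEmbOfFin rfl) * (U.submatrix id (T.orderEmbOfFin rfl))ᴴ := by
      have h1 : Y = Q * Uᴴ := by
        rw [hQdef, Matrix.mul_assoc, hU1, Matrix.mul_one]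
      rw [sub_eq_iff_eq_add]
      ext x y
      rw [Matrix.add_apply, Matrix.sum_apply, prod_entry]
      simp only [prod_entry]
      have h2 := sum_layers a hamono l (fun j => Q x j * star (U y j)) K hlK
      rw [h2]
      conv_lhs => rw [h1]
      rw [Matrix.mul_apply]
      rfl
    rw [hY]
    refine (Matrix.l2_opNorm_mul _ _).trans ?_
    rw [Matrix.l2_opNorm_conjTranspose]
    have h1 : ‖Q.submatrix id (T.orderEmbOfFin rfl)‖ ≤ s := by
      refine hQn T s hs.le fun j hj => ?_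
      have := (mem_filter.1 hj).2
      simpa [ha] using this
    calc ‖Q.submatrix id (T.orderEmbOfFin rfl)‖ * ‖U.submatrix id (T.orderEmbOfFin rfl)‖
        ≤ s * 1 := mul_le_mul h1 (hUn T) (norm_nonneg _) hs.le
      _ = s := mul_one s
  · refine hQn (S k) _ (by positivity) fun j hj => ?_
    exact (mem_filter.1 hj).2.2
  · have h2 := sum_layers a hamono l (fun j => l j ^ κ) K hlK
    rw [htk κ, ← h2]
    have h3 : 0 ≤ ∑ j ∈ univ.filter (fun j => l j ≤ a 0), l j ^ κ :=
      sum_nonneg fun j _ => pow_nonneg (hl j) κ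
    have h4 : ∑ k ∈ range K, ((S k).card : ℝ) * (4 ^ k * s ^ 2) ^ κ
        ≤ ∑ k ∈ range K, ∑ j ∈ univ.filter (fun j => a k < l j ∧ l j ≤ a (k + 1)), l j ^ κ := by
      refine sum_le_sum fun k _ => ?_
      rw [ha4, ← nsmul_eq_mul, ← sum_const]
      refine sum_le_sum fun j hj => ?_
      refine pow_le_pow_left₀ (by simp only [ha]; positivity) ?_ κ
      exact (mem_filter.1 hj).2.1.le
    linarith

end Pool.Agent.U60.GSP.DEC
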